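import Pool.Agent.N913.MT.G1

/-!
# Bounded clusters of primes `|n² + a|` for almost all `a`

The Maynard-Tao theorem for the values of `n² + a`: for every `m` there are `k` and `B` such that
for every set `S` of at least `k` nonnegative integers, for all but at most `ε X` of the integers
`-X ≤ a ≤ -1`, there is an `n` in the window `(√(-a) + J, √(-a) + J + (log X)^B]` for which at least
`m` of the numbers `|(n + h)² + a|`, `h ∈ S`, are primes; for each single `J ≤ (log X)^C`, and for
almost all members `J` of an arbitrary set of such `J` at the same time.

Method: write `-a = s² + r` with `0 ≤ r ≤ 2 s`, `n = s + i`. The value at `n + h` is the linear form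
`2 s (i + h) + (i + h)² - r` in the two variables `s` and `r`. For `i ≠ i'` two such forms are
independent, so that the second moment over all pairs `(s, r)` of the Maynard weights
`(∑_{d_h | value} λ_d)²` at `i` and at `i'` factorises, up to the primes dividing `i + h - i' - h'`,
which are below the size of the sieving primes for almost all pairs (W-trick up to `log log X`).
The same holds for the mixed moments with one prime value (Bombieri-Vinogradov with weights in two
variables) and with two prime values (Bombieri-Vinogradov for both). By Chebyshev's inequality the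
sums over `i` of the weights, and of the weights times the indicator functions of the prime
values, are close to their means for almost all `(s, r)`, and the quadratic forms of Maynard's
sieve, with weights supported on products of small sets, have unbounded ratio.
-/

set_option autoImplicit false

namespace Pool.Agent.Results.MP_391708_nt.BoundedClusters

open Finset

/-- the number of `h ∈ S` such that `|(n + h)² + a|` is a prime -/
def primesIn (S : Finset ℕ) (a : ℤ) (n : ℕ) : ℕ :=
  #(S.filter (fun h => Nat.Prime (((n + h : ℕ) : ℤ) ^ 2 + a).natAbs))

/-- **Bounded clusters of primes `|n² + a|` for almost all `a`.** For every `m` there are `k` and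
`B` such that for every set `S` of at least `k` nonnegative integers, all `C` and `ε > 0`, all
`X ≥ X₀` and every finite set `W` of integers `0 ≤ J ≤ (log X)^C` all but at most `ε X` of the
integers `-X ≤ a ≤ -1` have the following property: for all but at most `ε #W` of the `J ∈ W` there
is an `n` with `√(-a) + J < n ≤ √(-a) + J + (log X)^B` such that at least `m` of the numbers
`|(n + h)² + a|`, `h ∈ S`, are primes. -/
theorem result (m : ℕ) : ∃ k B : ℕ, ∀ S : Finset ℕ, k ≤ #S → ∀ (C : ℕ) (ε : ℝ), 0 < ε →
    ∃ X₀ : ℕ, ∀ X : ℕ, X₀ ≤ X → ∀ W : Finset ℕ, (∀ J ∈ W, (J : ℝ) ≤ Real.log X ^ C) →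
    ∃ Bad ⊆ Icc (-(X : ℤ)) (-1), (#Bad : ℝ) ≤ ε * X ∧ ∀ a ∈ Icc (-(X : ℤ)) (-1), a ∉ Bad →
      ∃ G ⊆ W, (1 - ε) * #W ≤ #G ∧ ∀ J ∈ G, ∃ n : ℕ, √(-(a : ℝ)) + J < n ∧
        (n : ℝ) ≤ √(-(a : ℝ)) + J + Real.log X ^ B ∧ m ≤ primesIn S a n :=
  Pool.Agent.N913.MT.windows m

end Pool.Agent.Results.MP_391708_nt.BoundedClusters
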