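import Pool.Agent.N728.QU.AllG

set_option autoImplicit false

/-!
# `P_a(N)` for almost all `a` of the form `c - h²`

For every integer `c` with few small prime factors (for example `c = 1`), `|c| ≤ K H²`, and all but at most `ε H` of the
`h ≤ H`, the number `P_a(N)` of the `n ≤ N` for which `|n² + a|` is a prime, `a = c - h²`, is the number predicted by Hardy
and Littlewood, for all `N ≤ K H` simultaneously.

Proof (`Agent/N728/QU`): `n² - h² + c = u v + c` with `u = n - h`, `v = n + h`, so `v - u = 2 h` (and `c - u v` with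
`u = h - n`, `u + v = 2 h` for `n < h`); the negative values are treated with `-c`. Bilinear sums over `c ± u v` with an
arbitrary bounded function of `v ∓ u` do not change if a divisor of `u v`, composed of primes of a suitable range, is
moved from `u` to `v`; by the multiplication table phenomenon of Erdős few multiplicative windows contain such a divisor,
and the off-diagonal terms are bounded by two applications of the Cauchy-Schwarz inequality and the fundamental lemma of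
the sieve (functions with mean zero on the cells (residue class and block)). For the functions constant on the cells the
range is shifted, by moving divisors again, to `u ≤ v / (log v)^C`, where the theorem of Bombieri and Vinogradov at the
sharp level applies. All this is uniform in `c`.
-/

namespace Pool.Agent.Results.MP_391708_nt.ShiftsBySquares

open Finset

/-- `c` has few small prime factors beyond `s₀`: `∑_{p ∣ c, p > s} 1/p ≤ 1/√s` for all `s ≥ s₀`. -/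
def Tame (s₀ : ℕ) (c : ℤ) : Prop :=
  c ≠ 0 ∧ ∀ s : ℕ, s₀ ≤ s → ∑ p ∈ c.natAbs.primeFactors.filter (fun p => s < p), 1 / (p : ℝ) ≤ 1 / √(s : ℝ)

/-- Every fixed `c ≠ 0`, for example `c = 1`, satisfies the condition with `s₀ = |c|`. -/
theorem tame_natAbs (c : ℤ) (h : c ≠ 0) : Tame c.natAbs c := by
  refine ⟨h, fun s hs => ?_⟩
  have h1 : c.natAbs.primeFactors.filter (fun p => s < p) = ∅ := by
    rw [filter_eq_empty_iff]
    intro p hp hsp
    have := Nat.le_of_mem_primeFactors hp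
    omega
  rw [h1, sum_empty]
  positivity

/-- `P_a(N)`: the number of the `1 ≤ n ≤ N` for which `|n² + a|` is a prime. -/
def P (a : ℤ) (N : ℕ) : ℕ := ((Icc 1 N).filter (fun n : ℕ => ((n : ℤ) ^ 2 + a).natAbs.Prime)).card

/-- The sum of `1 / log |n² + a|` over the `1 ≤ n ≤ N` with `|n² + a| ≥ 2`. -/
noncomputable def logSum (a : ℤ) (N : ℕ) : ℝ :=
  ∑ n ∈ (Icc 1 N).filter (fun n : ℕ => 2 ≤ ((n : ℤ) ^ 2 + a).natAbs), 1 / Real.log ((((n : ℤ) ^ 2 + a).natAbs : ℕ) : ℝ)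

/-- The number of the solutions of `n² + a ≡ 0` modulo `p`. -/
def omega (a : ℤ) (p : ℕ) : ℕ := ((range p).filter (fun n : ℕ => (p : ℤ) ∣ (n : ℤ) ^ 2 + a)).card

/-- The product which defines `h_a`, over the primes `p ≤ Z` (the factor at an odd `p` is `1 - (-a|p) / (p - 1)`, the
factor at `2` is `1`). -/
noncomputable def series (a : ℤ) (Z : ℕ) : ℝ :=
  ∏ p ∈ (Ioc 0 Z).filter Nat.Prime, (1 - (omega a p : ℝ) / p) / (1 - 1 / (p : ℝ))

/-- The conclusion for one `a`: the product is at least `κ`, and `P_a(N)` is the expected number up to `δ H / log H`, for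
all `N ≤ K H`. -/
def Good (κ δ : ℝ) (K H Z : ℕ) (a : ℤ) : Prop :=
  κ ≤ series a Z ∧ ∀ N : ℕ, N ≤ K * H → |(P a N : ℝ) - series a Z * logSum a N| ≤ δ * (H / Real.log H)

open Classical in
/-- The number of the `1 ≤ h ≤ H` for which the conclusion fails for `a = c - h²`. -/
noncomputable def exceptions (κ δ : ℝ) (c : ℤ) (K H Z : ℕ) : ℕ :=
  ((Icc 1 H).filter (fun h : ℕ => ¬ Good κ δ K H Z (c - (h : ℤ) ^ 2))).card

lemma Vg_eq (c : ℤ) (h m : ℕ) : Pool.Agent.N728.QU.Vg 1 0 1 c h m = (m : ℤ) ^ 2 + (c - (h : ℤ) ^ 2) := by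
  unfold Pool.Agent.N728.QU.Vg
  ring

lemma Vg_neg (c : ℤ) (h m : ℕ) : Pool.Agent.N728.QU.Vg 1 0 (-1) (-c) h m = -((m : ℤ) ^ 2 + (c - (h : ℤ) ^ 2)) := by
  unfold Pool.Agent.N728.QU.Vg
  ring

lemma series_eq (c : ℤ) (h Z : ℕ) : Pool.Agent.N728.QU.Sqg 1 0 1 c h Z = series (c - (h : ℤ) ^ 2) Z := by
  unfold series Pool.Agent.N728.QU.Sqg omega
  simp only [Vg_eq]

lemma series_neg (c : ℤ) (h Z : ℕ) : Pool.Agent.N728.QU.Sqg 1 0 (-1) (-c) h Z = series (c - (h : ℤ) ^ 2) Z := by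
  unfold series Pool.Agent.N728.QU.Sqg omega
  simp only [Vg_neg, dvd_neg]

lemma adg (c : ℤ) : Pool.Agent.N728.QU.Adg 1 0 c := by
  refine ⟨fun p hp h _ => ?_, fun h => ?_⟩
  · exfalso
    have h1 : (p : ℤ) ∣ 1 := h
    have h2 : p ∣ 1 := by exact_mod_cast h1
    exact hp.one_lt.ne' (Nat.dvd_one.1 h2)
  · norm_num at h

/-- positive and negative values -/
lemma P_eq (a : ℤ) (N : ℕ) : P a N = ((Icc 1 N).filter (fun n : ℕ => ((n : ℤ) ^ 2 + a).toNat.Prime)).card +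
    ((Icc 1 N).filter (fun n : ℕ => (-((n : ℤ) ^ 2 + a)).toNat.Prime)).card := by
  unfold P
  rw [← card_union_of_disjoint, ← filter_or]
  · congr 1
    apply filter_congr
    intro n _
    obtain ⟨v, hv⟩ : ∃ v : ℤ, v = (n : ℤ) ^ 2 + a := ⟨_, rfl⟩
    rw [← hv]
    rcases le_or_gt 0 v with h | h
    · have e1 : v.toNat = v.natAbs := by omega
      have e2 : (-v).toNat = 0 := by omega
      rw [e1, e2]
      exact ⟨Or.inl, fun h1 => h1.elim id (fun h2 => absurd h2 Nat.not_prime_zero)⟩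
    · have e1 : (-v).toNat = v.natAbs := by omega
      have e2 : v.toNat = 0 := by omega
      rw [e1, e2]
      exact ⟨Or.inr, fun h1 => h1.elim (fun h2 => absurd h2 Nat.not_prime_zero) id⟩
  · rw [disjoint_left]
    intro n h1 h2
    rw [mem_filter] at h1 h2
    have h3 := h1.2.two_le
    have h4 := h2.2.two_le
    omega

lemma logSum_eq (a : ℤ) (N : ℕ) : logSum a N =
    ∑ n ∈ (Icc 1 N).filter (fun n : ℕ => 2 ≤ (n : ℤ) ^ 2 + a), 1 / Real.log (((n : ℤ) ^ 2 + a : ℤ) : ℝ) +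
    ∑ n ∈ (Icc 1 N).filter (fun n : ℕ => 2 ≤ -((n : ℤ) ^ 2 + a)), 1 / Real.log ((-((n : ℤ) ^ 2 + a) : ℤ) : ℝ) := by
  unfold logSum
  have e1 : ∀ n : ℕ, Real.log ((((n : ℤ) ^ 2 + a).natAbs : ℕ) : ℝ) = Real.log (((n : ℤ) ^ 2 + a : ℤ) : ℝ) := by
    intro n
    rw [Nat.cast_natAbs, Int.cast_abs, Real.log_abs]
  have e2 : ∀ n : ℕ, Real.log ((-((n : ℤ) ^ 2 + a) : ℤ) : ℝ) = Real.log (((n : ℤ) ^ 2 + a : ℤ) : ℝ) := by
    intro n
    rw [Int.cast_neg, Real.log_neg_eq_log]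
  simp only [e1, e2]
  rw [← sum_union]
  · apply sum_congr _ (fun _ _ => rfl)
    rw [← filter_or]
    apply filter_congr
    intro n _
    omega
  · rw [disjoint_left]
    intro n h1 h2
    rw [mem_filter] at h1 h2
    omega

/-- **Theorem.** -/
theorem result (s₀ : ℕ) :
    ∀ ε : ℝ, 0 < ε → ∃ κ : ℝ, 0 < κ ∧ ∀ (δ : ℝ) (K : ℕ), 0 < δ → ∃ Z₀ : ℕ, ∀ A : ℕ, ∃ H₀ : ℕ, ∀ H : ℕ, H₀ ≤ H →
      ∀ (c : ℤ) (Z : ℕ), Tame s₀ c → c.natAbs ≤ K * H ^ 2 → Z₀ ≤ Z → (Z : ℝ) ≤ Real.log H ^ A →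
      (exceptions κ δ c K H Z : ℝ) ≤ ε * H := by
  classical
  intro ε hε
  obtain ⟨κ, hκ, h1⟩ := Pool.Agent.N728.QU.finalGU 1 0 le_rfl s₀ (ε / 2) (by positivity)
  refine ⟨κ, hκ, fun δ K hδ => ?_⟩
  obtain ⟨Z₀, h2⟩ := h1 (δ / 2) K (by positivity)
  refine ⟨Z₀, fun A => ?_⟩
  obtain ⟨H₀, h3⟩ := h2 A
  refine ⟨H₀, fun H hH c Z hc hcK hZ1 hZ2 => ?_⟩
  have hc' : Pool.Agent.N728.QU.Tame s₀ (-c) := by
    refine ⟨neg_ne_zero.2 hc.1, ?_⟩
    have h5 := hc.2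
    rw [Int.natAbs_neg]
    exact h5
  have h4 := h3 H hH Z c 1 hc (adg c) (Or.inl rfl) hcK hZ1 hZ2
  have h5 := h3 H hH Z (-c) (-1) hc' (adg (-c)) (Or.inr rfl) (by rw [Int.natAbs_neg]; exact hcK) hZ1 hZ2
  have hsub : (Icc 1 H).filter (fun h : ℕ => ¬ Good κ δ K H Z (c - (h : ℤ) ^ 2)) ⊆
      (Icc 1 H).filter (fun h : ℕ => ¬ (κ ≤ Pool.Agent.N728.QU.Sqg 1 0 1 c h Z ∧
      ∀ M : ℕ, M ≤ K * H → |(Pool.Agent.N728.QU.cntg 1 0 1 c h M : ℝ) - Pool.Agent.N728.QU.Sqg 1 0 1 c h Z *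
        ∑ m ∈ (Icc 1 M).filter (fun m : ℕ => 2 ≤ Pool.Agent.N728.QU.Vg 1 0 1 c h m),
          1 / Real.log ((Pool.Agent.N728.QU.Vg 1 0 1 c h m : ℤ) : ℝ)| ≤ δ / 2 * (H / Real.log H))) ∪
      (Icc 1 H).filter (fun h : ℕ => ¬ (κ ≤ Pool.Agent.N728.QU.Sqg 1 0 (-1) (-c) h Z ∧
      ∀ M : ℕ, M ≤ K * H → |(Pool.Agent.N728.QU.cntg 1 0 (-1) (-c) h M : ℝ) - Pool.Agent.N728.QU.Sqg 1 0 (-1) (-c) h Z *
        ∑ m ∈ (Icc 1 M).filter (fun m : ℕ => 2 ≤ Pool.Agent.N728.QU.Vg 1 0 (-1) (-c) h m),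
          1 / Real.log ((Pool.Agent.N728.QU.Vg 1 0 (-1) (-c) h m : ℤ) : ℝ)| ≤ δ / 2 * (H / Real.log H))) := by
    intro h hh
    rw [mem_filter] at hh
    rw [mem_union, mem_filter, mem_filter]
    by_contra hcon
    rw [not_or] at hcon
    obtain ⟨g1, g2⟩ := not_not.1 (fun hn => hcon.1 ⟨hh.1, hn⟩)
    obtain ⟨k1, k2⟩ := not_not.1 (fun hn => hcon.2 ⟨hh.1, hn⟩)
    apply hh.2
    refine ⟨by rw [series_eq] at g1; exact g1, fun N hN => ?_⟩
    have g3 := g2 N hN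
    have k3 := k2 N hN
    unfold Pool.Agent.N728.QU.cntg at g3 k3
    rw [series_eq] at g3
    rw [series_neg] at k3
    simp only [Vg_eq] at g3
    simp only [Vg_neg] at k3
    rw [P_eq, logSum_eq]
    rw [abs_le] at g3 k3 ⊢
    rw [Nat.cast_add, mul_add]
    constructor
    · linarith [g3.1, k3.1]
    · linarith [g3.2, k3.2]
  have e1 := (card_le_card hsub).trans (card_union_le _ _)
  have e2 : (((Icc 1 H).filter (fun h : ℕ => ¬ Good κ δ K H Z (c - (h : ℤ) ^ 2))).card : ℝ) ≤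
      (((Icc 1 H).filter (fun h : ℕ => ¬ (κ ≤ Pool.Agent.N728.QU.Sqg 1 0 1 c h Z ∧
      ∀ M : ℕ, M ≤ K * H → |(Pool.Agent.N728.QU.cntg 1 0 1 c h M : ℝ) - Pool.Agent.N728.QU.Sqg 1 0 1 c h Z *
        ∑ m ∈ (Icc 1 M).filter (fun m : ℕ => 2 ≤ Pool.Agent.N728.QU.Vg 1 0 1 c h m),
          1 / Real.log ((Pool.Agent.N728.QU.Vg 1 0 1 c h m : ℤ) : ℝ)| ≤ δ / 2 * (H / Real.log H)))).card : ℝ) +
      (((Icc 1 H).filter (fun h : ℕ => ¬ (κ ≤ Pool.Agent.N728.QU.Sqg 1 0 (-1) (-c) h Z ∧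
      ∀ M : ℕ, M ≤ K * H → |(Pool.Agent.N728.QU.cntg 1 0 (-1) (-c) h M : ℝ) - Pool.Agent.N728.QU.Sqg 1 0 (-1) (-c) h Z *
        ∑ m ∈ (Icc 1 M).filter (fun m : ℕ => 2 ≤ Pool.Agent.N728.QU.Vg 1 0 (-1) (-c) h m),
          1 / Real.log ((Pool.Agent.N728.QU.Vg 1 0 (-1) (-c) h m : ℤ) : ℝ)| ≤ δ / 2 * (H / Real.log H)))).card : ℝ) := by
    exact_mod_cast e1
  unfold exceptions
  linarith

end Pool.Agent.Results.MP_391708_nt.ShiftsBySquares
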