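import Mathlib
import Pool.Agent.N791.U.Both

/-!
# The asymptotic formula for the primes `n² + a`, for almost all `|a| ≤ A`, `N^(5/6+ε) ≤ A ≤ N`

For every `A` with `N^(5/6 + ε) ≤ A ≤ N` and almost all the integers `a` with `|a| ≤ A`, of both signs, the
number of the primes `|n² + a|`, `n ≤ N`, is the number which Hardy and Littlewood predict, with the constant
`h_a` of the problem, and the same holds in all intervals `u < n ≤ v ≤ N`. The numbers `n² + a` form here a thin
set of integers: `A` is smaller than the distances `2 n` of the squares, and the methods for averages over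
`a` (also under the generalized Riemann hypothesis) need `A ≥ N^(1 + ε)`.

Proof. For negative `a = -k` the substitution `n = m + s`, `s² ≈ 2 A`, gives the polynomials
`m² + 2 s m + (s² - k)` with positive constant terms `≤ 3 A` and a large linear coefficient. So the method of
`MP_a1177c_nt.ThinConstantTerms` (sieving, Vaughan's identity, type II estimates by Cauchy's inequality
over the triples of the constant term, a divisor and a root, and a double large sieve over frequencies and
cofactors jointly) is made uniform in the linear coefficient `b` for `b² ≤ Λ A`: in the expansion of the values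
near the diagonal the term `b² / 4` only moves the windows of the Fourier expansion. The products cut at
a power of the logarithm are compared with `h_a` for almost all `a`, uniformly as well.
-/

set_option autoImplicit false

namespace Pool.Agent.Results.MP_391708_nt.ThinFamiliesBothSigns

open Finset Filter Topology

/-- the number of `1 ≤ n ≤ N` for which `|n² + a|` is a prime -/
def P (a : ℤ) (N : ℕ) : ℕ := #((Icc 1 N).filter (fun n : ℕ => Nat.Prime ((n : ℤ) ^ 2 + a).natAbs))

/-- the product of `1 - (-a | w) / (w - 1)` over the odd primes `w ≤ X` -/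
noncomputable def hprod (a : ℤ) (X : ℕ) : ℝ :=
  ∏ w ∈ (range (X + 1)).filter (fun w => Nat.Prime w ∧ w ≠ 2), (1 - (jacobiSym (-a) w : ℝ) / ((w : ℝ) - 1))

lemma P_sub (a : ℤ) {u v : ℕ} (huv : u ≤ v) : (P a v : ℝ) - P a u =
    (#((Ioc u v).filter (fun n : ℕ => Nat.Prime ((n : ℤ) ^ 2 + a).natAbs)) : ℝ) := by
  have h : P a v = P a u + #((Ioc u v).filter (fun n : ℕ => Nat.Prime ((n : ℤ) ^ 2 + a).natAbs)) := by
    unfold P
    rw [← card_union_of_disjoint]
    · congr 1
      ext n
      simp only [mem_filter, mem_Icc, mem_Ioc, mem_union]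
      constructor
      · rintro ⟨⟨h1, h2⟩, h3⟩
        rcases le_or_gt n u with h | h
        · exact Or.inl ⟨⟨h1, h⟩, h3⟩
        · exact Or.inr ⟨⟨h, h2⟩, h3⟩
      · rintro (⟨⟨h1, h2⟩, h3⟩ | ⟨⟨h1, h2⟩, h3⟩)
        · exact ⟨⟨h1, by omega⟩, h3⟩
        · exact ⟨⟨by omega, h2⟩, h3⟩
    · rw [disjoint_left]
      intro n hn hn'
      rw [mem_filter, mem_Icc] at hn
      rw [mem_filter, mem_Ioc] at hn'
      omega
  rw [h]
  push_cast
  ring

/-- **The asymptotic formula for `P_a` for almost all `|a| ≤ A`, `N^(5/6+ε) ≤ A ≤ N`.** For all `ε, η > 0`, all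
large `N` and every `A` with `N^(5/6 + ε) ≤ A ≤ N`, all but at most `η A` of the integers `a` with `|a| ≤ A` have
the following property: if `a` is not of the form `-m²`, the product `h_a` converges to a number `h > 0`, and for
all `2 ≤ u ≤ v ≤ N` the number `P_a(v) - P_a(u)` of the `u < n ≤ v` with `|n² + a|` prime differs from
`(1/2) h ∫_u^v dt / log t` by at most `η (1/2) h ∫_2^N dt / log t`. -/
theorem result (ε η : ℝ) (hε : 0 < ε) (hη : 0 < η) :
    ∃ N0 : ℕ, ∀ N : ℕ, N0 ≤ N → ∀ A : ℕ, (N : ℝ) ^ (5 / 6 + ε) ≤ A → A ≤ N →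
    ∃ Ex ⊆ Icc (-(A : ℤ)) A, (#Ex : ℝ) ≤ η * A ∧ ∀ a ∈ Icc (-(A : ℤ)) A, a ∉ Ex → (∀ m : ℤ, a ≠ -m ^ 2) →
      ∃ h : ℝ, 0 < h ∧ Tendsto (fun X : ℕ => hprod a X) atTop (𝓝 h) ∧
        ∀ u v : ℕ, 2 ≤ u → u ≤ v → v ≤ N →
          |((P a v : ℝ) - P a u) - 1 / 2 * h * ∫ t in (u : ℝ)..(v : ℝ), 1 / Real.log t| ≤
            η * (1 / 2 * h * ∫ t in (2 : ℝ)..(N : ℝ), 1 / Real.log t) := by
  obtain ⟨N0, h⟩ := Pool.Agent.N791.U.both_int ε η hε hη
  refine ⟨N0, fun N hN A hA1 hA2 => ?_⟩
  obtain ⟨Ex, hE1, hE2, hE3⟩ := h N hN A hA1 hA2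
  refine ⟨Ex, hE1, hE2, fun a ha haE hsq => ?_⟩
  obtain ⟨S, hS, hSt, hb⟩ := hE3 a ha haE (by
    rintro ⟨m, hm⟩
    exact hsq m (by rw [sq]; omega))
  refine ⟨S, hS, hSt, fun u v hu huv hvN => ?_⟩
  rw [P_sub a huv]
  exact hb u v hu huv hvN

end Pool.Agent.Results.MP_391708_nt.ThinFamiliesBothSigns
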