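import Mathlib
import Pool.Agent.N792.T9Q

/-!
# Primes `n² + a` for almost all `a ≤ A`, `N^(7/10+ε) ≤ A ≤ N`

For every `A` with `N^(7/10 + ε) ≤ A ≤ N` almost all `a ≤ A` have at least `3/4 - η` times the number of
the primes `n² + a`, `n ≤ N`, which Hardy and Littlewood predict, with the constant `h_a` of the problem,
and the same holds in all intervals `u < n ≤ v ≤ N`. The numbers `n² + a` form here a thin set of integers:
`A` is smaller than the distances `2 n` of the squares, and the methods for averages over `a` (also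
under the generalized Riemann hypothesis) need `A ≥ N^(1 + ε)`.

Proof. Let `U = N^(4/5 - e)`, `Q = N^(2/5 + e)`, `V = N^(4/5 + 2 e)`. For a number `k` of size `N²` without a
small prime factor and without a divisor in `(U, N^(1 - ε')]` (or near `N`) the sum of `μ(d)` over the
divisors `d ≤ U` of `k` is `1` for a prime, `-2` for a product of three primes in `(Q, V]` and `0`
otherwise, since `d ≤ U` is equivalent to `d q ≤ U` for the smallest prime factor `q ≤ Q`. So the number of
the primes minus twice the number of these products of three primes is, up to negligible terms, a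
sum of type I sums and of type II sums `j k = n² + a`, `U < j ≤ N^(1 - ε')`. The type II sums are estimated on
average over `a ≤ A` by Cauchy's inequality over the triples of `a`, `j` and a root modulo `j` and a double
large sieve over the pairs of a frequency and the variable `k`, which saves a power of `N` if
`N^(3/2 + ε) ≤ A j`; this gives the condition on `A`. The expected number of the products of three primes
is at most `1/8` of the expected number of the primes. The constants are compared with the products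
over the primes for almost all `a`.
-/

set_option autoImplicit false

namespace Pool.Agent.Results.MP_391708_nt.ThinFamilyLowerBound

open Finset Filter Topology

/-- the number of `1 ≤ n ≤ N` for which `|n² + a|` is a prime -/
def P (a : ℤ) (N : ℕ) : ℕ := #((Icc 1 N).filter (fun n : ℕ => Nat.Prime ((n : ℤ) ^ 2 + a).natAbs))

/-- the product of `1 - (-a | w) / (w - 1)` over the odd primes `w ≤ X` -/
noncomputable def hprod (a : ℤ) (X : ℕ) : ℝ :=
  ∏ w ∈ (range (X + 1)).filter (fun w => Nat.Prime w ∧ w ≠ 2), (1 - (jacobiSym (-a) w : ℝ) / ((w : ℝ) - 1))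

lemma P_sub (a : ℤ) {u v : ℕ} (huv : u ≤ v) : (P a v : ℝ) - P a u =
    (#((Ioc u v).filter (fun n : ℕ => Nat.Prime ((n : ℤ) ^ 2 + a).natAbs)) : ℝ) := by
  have h : P a v = P a u + #((Ioc u v).filter (fun n : ℕ => Nat.Prime ((n : ℤ) ^ 2 + a).natAbs)) := by
    unfold P
    rw [← card_union_of_disjoint]
    · congr 1
      ext n
      simp only [mem_filter, mem_Icc, mem_Ioc, mem_union]
      constructor
      · rintro ⟨⟨h1, h2⟩, h3⟩
        rcases le_or_gt n u with h | h
        · exact Or.inl ⟨⟨h1, h⟩, h3⟩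
        · exact Or.inr ⟨⟨h, h2⟩, h3⟩
      · rintro (⟨⟨h1, h2⟩, h3⟩ | ⟨⟨h1, h2⟩, h3⟩)
        · exact ⟨⟨h1, by omega⟩, h3⟩
        · exact ⟨⟨by omega, h2⟩, h3⟩
    · rw [disjoint_left]
      intro n hn hn'
      rw [mem_filter, mem_Icc] at hn
      rw [mem_filter, mem_Ioc] at hn'
      omega
  rw [h]
  push_cast
  ring

/-- **A lower bound for the number of the primes `n² + a` for almost all `a ≤ A`, `N^(7/10+ε) ≤ A ≤ N`.**
For all `ε, η > 0`, all large `N` and every `A` with `N^(7/10 + ε) ≤ A ≤ N`, all but at most `η A` of the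
`1 ≤ a ≤ A` have the following property: the product `h_a` converges to a number `h > 0`, and for all
`2 ≤ u ≤ v ≤ N` the number `P_a(v) - P_a(u)` is at least
`(3/4) (1/2) h ∫_u^v dt / log t - η (1/2) h ∫_2^N dt / log t`. In particular (`u = 2`, `v = N`)
`P_a(N) ≥ (3/4 - η) (1/2) h ∫_2^N dt / log t`. -/
theorem result (ε η : ℝ) (hε : 0 < ε) (hη : 0 < η) :
    ∃ N0 : ℕ, ∀ N : ℕ, N0 ≤ N → ∀ A : ℕ, (N : ℝ) ^ (7 / 10 + ε) ≤ A → A ≤ N →
    ∃ Ex ⊆ Icc 1 A, (#Ex : ℝ) ≤ η * A ∧ ∀ a ∈ Icc 1 A, a ∉ Ex →
      ∃ h : ℝ, 0 < h ∧ Tendsto (fun X : ℕ => hprod a X) atTop (𝓝 h) ∧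
        ∀ u v : ℕ, 2 ≤ u → u ≤ v → v ≤ N →
          3 / 4 * (1 / 2 * h * ∫ t in (u : ℝ)..(v : ℝ), 1 / Real.log t) -
            η * (1 / 2 * h * ∫ t in (2 : ℝ)..(N : ℝ), 1 / Real.log t) ≤ (P a v : ℝ) - P a u := by
  obtain ⟨N0, h⟩ := Pool.Agent.N792.t9_int ε η hε hη
  refine ⟨N0, fun N hN A hA1 hA2 => ?_⟩
  obtain ⟨Ex, hE1, hE2, hE3⟩ := h N hN A hA1 hA2
  refine ⟨Ex, hE1, hE2, fun a ha haE => ?_⟩
  obtain ⟨S, hS, hSt, hb⟩ := hE3 a ha haE
  refine ⟨S, hS, hSt, fun u v hu huv hvN => ?_⟩
  rw [P_sub a huv]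
  exact hb u v hu huv hvN

end Pool.Agent.Results.MP_391708_nt.ThinFamilyLowerBound
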